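import Mathlib
import Pool.Agent.H882R3.CWAsymp

set_option autoImplicit false

/-!
# The censored walk on monotone sets does not mix in time `C n log n` with an absolute `C`

For `1 ≤ k`, `2 k ≤ n` the union `A` of the two subcubes `{x_1 = ... = x_k = 1}` and
`{x_{k+1} = ... = x_{2k} = 1}` is monotone, has `2^{-k} ≤ ℙ(A) ≤ 2^{1-k}` and
`t_mix(A) ≥ n (2^k - 1) / (2 k)`.
-/

namespace Pool.Agent.Results.MP_52661b_pr.NotUniform

open Filter Pool.Agent.H882R3.CW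

theorem result :
    (¬ ∃ C : ℝ, ∀ n : ℕ, 2 ≤ n → ∀ A : Finset (Cube n), A.Nonempty → IsMonotone A →
      (tmix A : ℝ) ≤ C * n * Real.log n) ∧
    (∀ C ε : ℝ, 0 < ε → ∀ᶠ n : ℕ in atTop, ∃ A : Finset (Cube n), A.Nonempty ∧ IsMonotone A ∧
      (Real.log n) ^ (-(1 + ε)) ≤ prob A ∧ C * n * Real.log n < tmix A) ∧
    (∀ n k : ℕ, 1 ≤ k → 2 * k ≤ n → ∃ A : Finset (Cube n), A.Nonempty ∧ IsMonotone A ∧
      1 / 2 ^ k ≤ prob A ∧ prob A ≤ 2 / 2 ^ k ∧ (n : ℝ) * (2 ^ k - 1) / (2 * k) ≤ tmix A) ∧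
    (∀ n : ℕ, 1 ≤ n → ∀ A : Finset (Cube n), A.Nonempty → IsMonotone A →
      Mixed A (tmix A) ∧ ∀ t < tmix A, ¬ Mixed A t) := by
  refine ⟨?_, eventually_example, ?_, ?_⟩
  · rintro ⟨C, hC⟩
    obtain ⟨n, ⟨A, hA, hm, -, hlt⟩, hn⟩ :=
      ((eventually_example C 1 one_pos).and (eventually_ge_atTop 2)).exists
    exact absurd (hC n hn A hA hm) (not_le.mpr hlt)
  · intro n k hk h
    exact ⟨AA n k, AA_nonempty n k, AA_mono n k, prob_lower n k h, prob_upper n k h,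
      tmix_lower n k hk h⟩
  · intro n hn A hA hm
    exact ⟨tmix_spec A hm hA hn, fun t ht => Nat.notMem_of_lt_sInf ht⟩

end Pool.Agent.Results.MP_52661b_pr.NotUniform
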